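import Pool.Agent.Helper74.HG.Goals

/-!
# Project HG, packet CONV
-/

open MvPolynomial Polynomial

namespace Pool.Agent.Helper93.HG.CONV

open Pool.Agent.Helper74.HG

noncomputable section

/-- Laurent polynomials in `τ` over `ℂ[σ]`. -/
abbrev LL (σ : Type) : Type := ℤ →₀ MvPolynomial σ ℂ

/-- Multiplication by `g`. -/
def mu {σ : Type} (g : MvPolynomial σ ℂ) : LL σ →ₗ[ℂ] LL σ :=
  Finsupp.mapRange.linearMap (LinearMap.mulLeft ℂ g)

/-- Multiplication by `τ^k`. -/
def sh {σ : Type} (k : ℤ) : LL σ →ₗ[ℂ] LL σ :=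
  Finsupp.lsum ℂ fun j : ℤ => Finsupp.lsingle (j + k)

/-- Coefficientwise derivative. -/
def dr {σ : Type} (i : σ) : LL σ →ₗ[ℂ] LL σ :=
  Finsupp.mapRange.linearMap ((pderiv i : Derivation ℂ (MvPolynomial σ ℂ) (MvPolynomial σ ℂ)) :
          MvPolynomial σ ℂ →ₗ[ℂ] MvPolynomial σ ℂ)

/-- `g τ^j ↦ j g τ^j`. -/
def eu {σ : Type} : LL σ →ₗ[ℂ] LL σ :=
  Finsupp.lsum ℂ fun j : ℤ => (j : ℂ) • Finsupp.lsingle j

/-- The derivatives. -/
def dd {σ : Type} (f : MvPolynomial σ ℂ) (i : σ) : LL σ →ₗ[ℂ] LL σ :=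
  dr i - (sh 1).comp (mu (pderiv i f))

/-- The operator `S`. -/
def SS {σ : Type} (f : MvPolynomial σ ℂ) : LL σ →ₗ[ℂ] LL σ :=
  eu - (sh 1).comp (mu f)

variable {σ : Type}

@[simp] theorem mu_single (g : MvPolynomial σ ℂ) (j : ℤ) (r : MvPolynomial σ ℂ) :
    mu g (Finsupp.single j r) = Finsupp.single j (g * r) := by
  simp [mu]

@[simp] theorem sh_single (k j : ℤ) (r : MvPolynomial σ ℂ) :
    sh k (Finsupp.single j r) = Finsupp.single (j + k) r := by
  simp [sh]

@[simp] theorem dr_single (i : σ) (j : ℤ) (r : MvPolynomial σ ℂ) :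
    dr i (Finsupp.single j r) = Finsupp.single j (pderiv i r) := by
  simp [dr]

@[simp] theorem eu_single (j : ℤ) (r : MvPolynomial σ ℂ) :
    eu (Finsupp.single j r) = Finsupp.single j ((j : ℂ) • r) := by
  simp [eu]

@[simp] theorem dd_single (f : MvPolynomial σ ℂ) (i : σ) (j : ℤ) (r : MvPolynomial σ ℂ) :
    dd f i (Finsupp.single j r) =
      Finsupp.single j (pderiv i r) - Finsupp.single (j + 1) (pderiv i f * r) := by
  simp only [dd, LinearMap.sub_apply, LinearMap.comp_apply, dr_single, mu_single, sh_single]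

@[simp] theorem SS_single (f : MvPolynomial σ ℂ) (j : ℤ) (r : MvPolynomial σ ℂ) :
    SS f (Finsupp.single j r) =
      Finsupp.single j ((j : ℂ) • r) - Finsupp.single (j + 1) (f * r) := by
  simp only [SS, LinearMap.sub_apply, LinearMap.comp_apply, eu_single, mu_single, sh_single]

theorem lext {M : Type} [AddCommMonoid M] [Module ℂ M] {φ ψ : LL σ →ₗ[ℂ] M}
    (h : ∀ j r, φ (Finsupp.single j r) = ψ (Finsupp.single j r)) (v : LL σ) : φ v = ψ v := by
  have : φ = ψ := Finsupp.lhom_ext h
  rw [this]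

theorem mu_mul (g h : MvPolynomial σ ℂ) (v : LL σ) : mu g (mu h v) = mu (g * h) v :=
  lext (φ := (mu g).comp (mu h)) (ψ := mu (g * h)) (by
    intro j r
    simp only [LinearMap.comp_apply, mu_single, mul_assoc]) v

theorem mu_one (v : LL σ) : mu (1 : MvPolynomial σ ℂ) v = v :=
  lext (φ := mu 1) (ψ := LinearMap.id) (by
    intro j r
    simp only [LinearMap.id_apply, mu_single, one_mul]) v

theorem mu_add (g h : MvPolynomial σ ℂ) (v : LL σ) : mu (g + h) v = mu g v + mu h v :=
  lext (φ := mu (g + h)) (ψ := mu g + mu h) (by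
    intro j r
    simp only [LinearMap.add_apply, mu_single, add_mul, Finsupp.single_add]) v

theorem mu_C (c : ℂ) (v : LL σ) : mu (MvPolynomial.C c : MvPolynomial σ ℂ) v = c • v :=
  lext (φ := mu (MvPolynomial.C c)) (ψ := c • LinearMap.id) (by
    intro j r
    simp only [LinearMap.smul_apply, LinearMap.id_apply, mu_single, MvPolynomial.C_mul',
      Finsupp.smul_single]) v

theorem mu_dd (f g : MvPolynomial σ ℂ) (i : σ) (v : LL σ) :
    mu g (dd f i v) = dd f i (mu g v) - mu (pderiv i g) v :=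
  lext (φ := (mu g).comp (dd f i)) (ψ := (dd f i).comp (mu g) - mu (pderiv i g)) (by
    intro j r
    simp only [LinearMap.comp_apply, dd_single, mu_single, map_sub, LinearMap.sub_apply,
      Derivation.leibniz, smul_eq_mul, Finsupp.single_add]
    rw [mul_comm (pderiv i g) r, mul_left_comm g]
    abel) v

theorem mu_SS (f g : MvPolynomial σ ℂ) (v : LL σ) : mu g (SS f v) = SS f (mu g v) :=
  lext (φ := (mu g).comp (SS f)) (ψ := (SS f).comp (mu g)) (by
    intro j r
    simp only [LinearMap.comp_apply, SS_single, mu_single, map_sub]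
    rw [mul_left_comm g, mul_smul_comm]) v

theorem dd_SS (f : MvPolynomial σ ℂ) (i : σ) (v : LL σ) :
    dd f i (SS f v) = SS f (dd f i v) :=
  lext (φ := (dd f i).comp (SS f)) (ψ := (SS f).comp (dd f i)) (by
    intro j r
    have h1 : dd f i (SS f (Finsupp.single j r)) =
        (Finsupp.single j ((j : ℂ) • pderiv i r) -
          Finsupp.single (j + 1) ((j : ℂ) • (pderiv i f * r))) -
        (Finsupp.single (j + 1) (pderiv i f * r + f * pderiv i r) -
          Finsupp.single (j + 1 + 1) (f * (pderiv i f * r))) := by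
      rw [SS_single, map_sub, dd_single, dd_single, Derivation.map_smul, mul_smul_comm,
        Derivation.leibniz, smul_eq_mul, smul_eq_mul, mul_left_comm f, add_comm (f * _),
        mul_comm r]
    have h2 : SS f (dd f i (Finsupp.single j r)) =
        (Finsupp.single j ((j : ℂ) • pderiv i r) - Finsupp.single (j + 1) (f * pderiv i r)) -
        (Finsupp.single (j + 1) (((j + 1 : ℤ) : ℂ) • (pderiv i f * r)) -
          Finsupp.single (j + 1 + 1) (f * (pderiv i f * r))) := by
      rw [dd_single, map_sub, SS_single, SS_single]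
    rw [LinearMap.comp_apply, LinearMap.comp_apply, h1, h2, Int.cast_add, Int.cast_one, add_smul,
      one_smul, Finsupp.single_add, Finsupp.single_add]
    abel) v

/-- The algebra of operators. -/
def DL (f : MvPolynomial σ ℂ) : Subalgebra ℂ (Module.End ℂ (LL σ)) :=
  Algebra.adjoin ℂ
    (Set.range (fun i : σ => mu (X i)) ∪ Set.range (fun i : σ => dd f i) ∪ {SS f})

/-! ### Evaluation at `s = N` -/

/-- The constant `(-1)^(N+k) N! / k!`. -/
def ec (N k : ℕ) : ℂ := (-1) ^ (N + k) * (N.factorial : ℂ) / (k.factorial : ℂ)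

theorem ec_succ (N k : ℕ) : ec N k = -((k : ℂ) + 1) * ec N (k + 1) := by
  unfold ec
  have h1 : (k.factorial : ℂ) ≠ 0 := by exact_mod_cast k.factorial_ne_zero
  have h2 : ((k : ℂ) + 1) ≠ 0 := by exact_mod_cast Nat.succ_ne_zero k
  rw [Nat.factorial_succ, ← add_assoc, pow_succ]
  push_cast
  field_simp

theorem ec_self (N : ℕ) : ec N N = 1 := by
  unfold ec
  have h1 : (N.factorial : ℂ) ≠ 0 := by exact_mod_cast N.factorial_ne_zero
  rw [← two_mul, pow_mul]
  simp [h1]

theorem ec_zero (N : ℕ) : ec N 0 ≠ 0 := by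
  unfold ec
  have h1 : (N.factorial : ℂ) ≠ 0 := by exact_mod_cast N.factorial_ne_zero
  simp [h1]

/-- The value of `τ^(N - m)`. -/
def wt (f : MvPolynomial σ ℂ) (N : ℕ) (m : ℤ) : MvPolynomial σ ℂ :=
  if 0 ≤ m then ec N m.toNat • f ^ m.toNat else 0

theorem wt_nat (f : MvPolynomial σ ℂ) (N k : ℕ) : wt f N (k : ℤ) = ec N k • f ^ k := by
  simp [wt]

theorem wt_neg (f : MvPolynomial σ ℂ) (N : ℕ) (m : ℤ) (h : m < 0) : wt f N m = 0 := by
  rw [wt, if_neg (by omega)]

theorem W1 (f : MvPolynomial σ ℂ) (N : ℕ) (m : ℤ) :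
    f * wt f N (m - 1) = -((m : ℂ) • wt f N m) := by
  rcases lt_or_ge m 0 with h | h
  · rw [wt_neg _ _ _ h, wt_neg _ _ _ (by omega), mul_zero, smul_zero, neg_zero]
  · obtain ⟨k, rfl⟩ := Int.eq_ofNat_of_zero_le h
    rcases k with _ | k
    · rw [wt_neg _ _ _ (by omega)]
      simp
    · have h1 : ((k + 1 : ℕ) : ℤ) - 1 = (k : ℤ) := by omega
      rw [h1, wt_nat, wt_nat, mul_smul_comm, ← pow_succ', smul_smul, ec_succ N k, ← neg_smul]
      congr 1
      push_cast
      ring

theorem W2 (f : MvPolynomial σ ℂ) (N : ℕ) (i : σ) (m : ℤ) :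
    pderiv i (wt f N m) = -(pderiv i f * wt f N (m - 1)) := by
  rcases lt_or_ge m 0 with h | h
  · rw [wt_neg _ _ _ h, wt_neg _ _ _ (by omega), mul_zero, map_zero, neg_zero]
  · obtain ⟨k, rfl⟩ := Int.eq_ofNat_of_zero_le h
    rcases k with _ | k
    · rw [wt_neg f N (((0 : ℕ) : ℤ) - 1) (by simp), wt_nat]
      simp
    · have h1 : ((k + 1 : ℕ) : ℤ) - 1 = (k : ℤ) := by omega
      rw [h1, wt_nat, wt_nat, Derivation.map_smul, Derivation.leibniz_pow, ec_succ N k]
      simp only [add_tsub_cancel_right, smul_eq_mul, nsmul_eq_mul, MvPolynomial.smul_eq_C_mul,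
        map_mul, map_neg, map_add, map_one]
      push_cast
      have h2 : (MvPolynomial.C (k : ℂ) : MvPolynomial σ ℂ) = (k : MvPolynomial σ ℂ) := by simp
      rw [h2]
      ring

/-- The evaluation at `s = N`. -/
def ev (f : MvPolynomial σ ℂ) (N : ℕ) : LL σ →ₗ[ℂ] MvPolynomial σ ℂ :=
  Finsupp.lsum ℂ fun j : ℤ => LinearMap.mulRight ℂ (wt f N (N - j))

@[simp] theorem ev_single (f : MvPolynomial σ ℂ) (N : ℕ) (j : ℤ) (r : MvPolynomial σ ℂ) :
    ev f N (Finsupp.single j r) = r * wt f N (N - j) := by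
  simp [ev]

theorem ev_mu (f g : MvPolynomial σ ℂ) (N : ℕ) (v : LL σ) : ev f N (mu g v) = g * ev f N v :=
  lext (φ := (ev f N).comp (mu g)) (ψ := (LinearMap.mulLeft ℂ g).comp (ev f N)) (by
    intro j r
    simp only [LinearMap.comp_apply, mu_single, ev_single, LinearMap.mulLeft_apply, mul_assoc]) v

theorem ev_dd (f : MvPolynomial σ ℂ) (N : ℕ) (i : σ) (v : LL σ) :
    ev f N (dd f i v) = pderiv i (ev f N v) :=
  lext (φ := (ev f N).comp (dd f i))
    (ψ := ((pderiv i : Derivation ℂ (MvPolynomial σ ℂ) (MvPolynomial σ ℂ)) :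
          MvPolynomial σ ℂ →ₗ[ℂ] MvPolynomial σ ℂ).comp (ev f N)) (by
    intro j r
    simp only [LinearMap.comp_apply, dd_single, map_sub, ev_single, Derivation.coeFn_coe,
      Derivation.leibniz, W2, smul_eq_mul]
    have h1 : (N : ℤ) - (j + 1) = N - j - 1 := by ring
    rw [h1]
    ring) v

theorem ev_SS (f : MvPolynomial σ ℂ) (N : ℕ) (v : LL σ) :
    ev f N (SS f v) = (N : ℂ) • ev f N v :=
  lext (φ := (ev f N).comp (SS f)) (ψ := (N : ℂ) • ev f N) (by
    intro j r
    simp only [LinearMap.comp_apply, SS_single, map_sub, ev_single, LinearMap.smul_apply]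
    have h1 : (N : ℤ) - (j + 1) = N - j - 1 := by ring
    rw [h1]
    have h2 := W1 f N ((N : ℤ) - j)
    have h3 : f * r * wt f N (N - j - 1) = r * (f * wt f N (N - j - 1)) := by ring
    rw [h3, h2]
    push_cast
    rw [sub_smul, smul_mul_assoc, mul_neg, mul_sub, mul_smul_comm, mul_smul_comm]
    abel) v

theorem ev_inj (f : MvPolynomial σ ℂ) (v : LL σ) (h0 : ∀ j < 0, v j = 0)
    (h : ∀ N, ev f N v = 0) : v = 0 := by
  have key : ∀ N : ℕ, v (N : ℤ) = 0 := by
    intro N
    induction N using Nat.strong_induction_on with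
    | _ N ih =>
      have h1 := h N
      have h2 : ev f N v = v (N : ℤ) * wt f N 0 := by
        have h3 : ev f N v = v.sum fun j r => r * wt f N (N - j) := by
          rw [ev, Finsupp.lsum_apply]
          rfl
        rw [h3, Finsupp.sum, Finset.sum_eq_single (N : ℤ)]
        · rw [sub_self]
        · intro j _ hj
          rcases lt_or_ge j 0 with h4 | h4
          · rw [h0 j h4, zero_mul]
          · obtain ⟨k, rfl⟩ := Int.eq_ofNat_of_zero_le h4
            rcases lt_or_ge k N with h5 | h5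
            · rw [ih k h5, zero_mul]
            · rw [wt_neg _ _ _ (by omega), mul_zero]
        · intro h4
          rw [Finsupp.notMem_support_iff.1 h4, zero_mul]
      rw [h2, ← Nat.cast_zero, wt_nat, pow_zero] at h1
      rw [mul_smul_comm, mul_one, smul_eq_zero] at h1
      exact h1.resolve_left (ec_zero N)
  ext1 j
  rcases lt_or_ge j 0 with h4 | h4
  · exact h0 j h4
  · obtain ⟨k, rfl⟩ := Int.eq_ofNat_of_zero_le h4
    exact key k

/-! ### `DS` and `DL` -/

/-- `P` and `Q` correspond to each other. -/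
def Rel (f : MvPolynomial σ ℂ) (P : ℂ → Module.End ℂ (MvPolynomial σ ℂ))
    (Q : Module.End ℂ (LL σ)) : Prop :=
  ∀ (N : ℕ) (v : LL σ), ev f N (Q v) = P (N : ℂ) (ev f N v)

theorem toDL (f : MvPolynomial σ ℂ) (P : ℂ → Module.End ℂ (MvPolynomial σ ℂ))
    (hP : P ∈ DS σ) : ∃ Q ∈ DL f, Rel f P Q := by
  induction hP using Algebra.adjoin_induction with
  | mem P hP =>
    rcases hP with (⟨i, rfl⟩ | ⟨i, rfl⟩) | hP
    · exact ⟨mu (X i), Algebra.subset_adjoin (Or.inl (Or.inl ⟨i, rfl⟩)), fun N v => ev_mu f _ N v⟩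
    · exact ⟨dd f i, Algebra.subset_adjoin (Or.inl (Or.inr ⟨i, rfl⟩)), fun N v => ev_dd f N i v⟩
    · rw [Set.mem_singleton_iff] at hP
      subst hP
      exact ⟨SS f, Algebra.subset_adjoin (Or.inr rfl), fun N v => by
        rw [ev_SS]
        rfl⟩
  | algebraMap c =>
    refine ⟨algebraMap ℂ _ c, Subalgebra.algebraMap_mem _ c, fun N v => ?_⟩
    rw [Module.algebraMap_end_apply, map_smul]
    rfl
  | add P P' _ _ h h' =>
    obtain ⟨Q, hQ, hR⟩ := h
    obtain ⟨Q', hQ', hR'⟩ := h'
    refine ⟨Q + Q', Subalgebra.add_mem _ hQ hQ', fun N v => ?_⟩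
    rw [LinearMap.add_apply, map_add, hR, hR']
    rfl
  | mul P P' _ _ h h' =>
    obtain ⟨Q, hQ, hR⟩ := h
    obtain ⟨Q', hQ', hR'⟩ := h'
    refine ⟨Q * Q', Subalgebra.mul_mem _ hQ hQ', fun N v => ?_⟩
    rw [Module.End.mul_apply, hR, hR']
    rfl

theorem toDS (f : MvPolynomial σ ℂ) (Q : Module.End ℂ (LL σ)) (hQ : Q ∈ DL f) :
    ∃ P ∈ DS σ, Rel f P Q := by
  induction hQ using Algebra.adjoin_induction with
  | mem P hP =>
    rcases hP with (⟨i, rfl⟩ | ⟨i, rfl⟩) | hP
    · exact ⟨_, Algebra.subset_adjoin (Or.inl (Or.inl ⟨i, rfl⟩)), fun N v => ev_mu f _ N v⟩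
    · exact ⟨_, Algebra.subset_adjoin (Or.inl (Or.inr ⟨i, rfl⟩)), fun N v => ev_dd f N i v⟩
    · rw [Set.mem_singleton_iff] at hP
      subst hP
      exact ⟨_, Algebra.subset_adjoin (Or.inr rfl), fun N v => by
        rw [ev_SS]
        rfl⟩
  | algebraMap c =>
    refine ⟨algebraMap ℂ _ c, Subalgebra.algebraMap_mem _ c, fun N v => ?_⟩
    rw [Module.algebraMap_end_apply, map_smul]
    rfl
  | add P P' _ _ h h' =>
    obtain ⟨Q, hQ, hR⟩ := h
    obtain ⟨Q', hQ', hR'⟩ := h'
    refine ⟨Q + Q', Subalgebra.add_mem _ hQ hQ', fun N v => ?_⟩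
    rw [LinearMap.add_apply, map_add, hR, hR']
    rfl
  | mul P P' _ _ h h' =>
    obtain ⟨Q, hQ, hR⟩ := h
    obtain ⟨Q', hQ', hR'⟩ := h'
    refine ⟨Q * Q', Subalgebra.mul_mem _ hQ hQ', fun N v => ?_⟩
    rw [Module.End.mul_apply, hR, hR']
    rfl

/-- Supported in `j ≥ 0`. -/
def nn (σ : Type) : Submodule ℂ (LL σ) where
  carrier := {v | ∀ j < 0, v j = 0}
  add_mem' {a b} ha hb j hj := by rw [Finsupp.add_apply, ha j hj, hb j hj, add_zero]
  zero_mem' _ _ := rfl
  smul_mem' c a ha j hj := by rw [Finsupp.smul_apply, ha j hj, smul_zero]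

theorem nn_single (j : ℤ) (hj : 0 ≤ j) (r : MvPolynomial σ ℂ) : Finsupp.single j r ∈ nn σ := by
  intro k hk
  rw [Finsupp.single_apply, if_neg (by omega)]

/-- Operators which preserve `nn`: check on the singles. -/
theorem nn_of (Q : LL σ →ₗ[ℂ] LL σ) (h : ∀ (j : ℤ) (r : MvPolynomial σ ℂ), 0 ≤ j →
    Q (Finsupp.single j r) ∈ nn σ) (v : LL σ) (hv : v ∈ nn σ) : Q v ∈ nn σ := by
  rw [← Finsupp.sum_single v, Finsupp.sum, map_sum]
  refine Submodule.sum_mem _ fun j hj => ?_
  refine h j _ ?_
  by_contra h1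
  exact (Finsupp.mem_support_iff.1 hj) (hv j (by omega))

theorem DL_nn (f : MvPolynomial σ ℂ) (Q : Module.End ℂ (LL σ)) (hQ : Q ∈ DL f) :
    ∀ v ∈ nn σ, Q v ∈ nn σ := by
  induction hQ using Algebra.adjoin_induction with
  | mem P hP =>
    rcases hP with (⟨i, rfl⟩ | ⟨i, rfl⟩) | hP
    · refine nn_of _ fun j r hj => ?_
      rw [mu_single]
      exact nn_single _ hj _
    · refine nn_of _ fun j r hj => ?_
      rw [dd_single]
      exact Submodule.sub_mem _ (nn_single _ hj _) (nn_single _ (by omega) _)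
    · rw [Set.mem_singleton_iff] at hP
      subst hP
      refine nn_of _ fun j r hj => ?_
      rw [SS_single]
      exact Submodule.sub_mem _ (nn_single _ hj _) (nn_single _ (by omega) _)
  | algebraMap c =>
    intro v hv
    rw [Module.algebraMap_end_apply]
    exact Submodule.smul_mem _ _ hv
  | add P P' _ _ h h' =>
    intro v hv
    exact Submodule.add_mem _ (h v hv) (h' v hv)
  | mul P P' _ _ h h' =>
    intro v hv
    exact h _ (h' v hv)

/-! ### Integration over `w`, `l` -/

/-- The inclusion. -/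
def io : MvPolynomial σ ℂ →ₐ[ℂ] MvPolynomial (Option (Option σ)) ℂ :=
  rename fun i => some (some i)

/-- The variable `w`. -/
def ww : MvPolynomial (Option (Option σ)) ℂ := X none

/-- The variable `l`. -/
def ll : MvPolynomial (Option (Option σ)) ℂ := X (some none)

theorem io_X (i : σ) : io (X i : MvPolynomial σ ℂ) = X (some (some i)) := by
  simp [io]

theorem io_C (c : ℂ) : io (MvPolynomial.C c : MvPolynomial σ ℂ) = MvPolynomial.C c := by
  simp [io]

theorem pd_ss (i : σ) (p : MvPolynomial σ ℂ) :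
    pderiv (some (some i)) (io p) = io (pderiv i p) := by
  classical
  induction p using MvPolynomial.induction_on with
  | C a => simp
  | add p q hp hq => rw [map_add, map_add, map_add, map_add, hp, hq]
  | mul_X p j hp =>
    rw [map_mul, Derivation.leibniz, Derivation.leibniz, hp, io_X, smul_eq_mul, smul_eq_mul,
      smul_eq_mul, smul_eq_mul, map_add, map_mul, map_mul, io_X, pderiv_X, pderiv_X]
    by_cases h : j = i
    · subst h
      simp
    · rw [Pi.single_eq_of_ne, Pi.single_eq_of_ne, map_zero]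
      · exact h
      · intro h1
        exact h (Option.some_injective _ (Option.some_injective _ h1))

theorem pd_none (k : Option (Option σ)) (hk : ∀ i, some (some i) ≠ k) (p : MvPolynomial σ ℂ) :
    pderiv k (io p) = 0 := by
  classical
  induction p using MvPolynomial.induction_on with
  | C a => simp
  | add p q hp hq => rw [map_add, map_add, hp, hq, add_zero]
  | mul_X p j hp =>
    rw [map_mul, Derivation.leibniz, hp, io_X, pderiv_X, Pi.single_eq_of_ne (hk j), smul_zero,
      smul_zero, add_zero]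

/-- The monomials in `w`, `l` with coefficients in `ℂ[σ]` span. -/
theorem spn (p : MvPolynomial (Option (Option σ)) ℂ → Prop)
    (h1 : ∀ r a b, p (io r * ww ^ a * ll ^ b)) (h2 : ∀ g g', p g → p g' → p (g + g'))
    (g : MvPolynomial (Option (Option σ)) ℂ) : p g := by
  let S : AddSubmonoid (MvPolynomial (Option (Option σ)) ℂ) :=
    AddSubmonoid.closure {x | ∃ r a b, x = io r * ww ^ a * ll ^ b}
  have hS : ∀ g ∈ S, p g := by
    intro g hg
    induction hg using AddSubmonoid.closure_induction with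
    | mem x hx =>
      obtain ⟨r, a, b, rfl⟩ := hx
      exact h1 r a b
    | zero =>
      have := h1 0 0 0
      simpa using this
    | add x y _ _ hx hy => exact h2 _ _ hx hy
  refine hS g ?_
  induction g using MvPolynomial.induction_on with
  | C a =>
    refine AddSubmonoid.subset_closure ⟨MvPolynomial.C a, 0, 0, ?_⟩
    rw [io_C, pow_zero, pow_zero, mul_one, mul_one]
  | add p q hp hq => exact S.add_mem hp hq
  | mul_X p k hp =>
    induction hp using AddSubmonoid.closure_induction with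
    | mem x hx =>
      obtain ⟨r, a, b, rfl⟩ := hx
      rcases k with _ | _ | i
      · refine AddSubmonoid.subset_closure ⟨r, a + 1, b, ?_⟩
        rw [pow_succ]
        change _ * ww = _
        ring
      · refine AddSubmonoid.subset_closure ⟨r, a, b + 1, ?_⟩
        rw [pow_succ ll]
        change _ * ll = _
        ring
      · refine AddSubmonoid.subset_closure ⟨r * X i, a, b, ?_⟩
        rw [map_mul, io_X]
        ring
    | zero =>
      rw [zero_mul]
      exact S.zero_mem
    | add x y _ _ hx hy =>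
      rw [add_mul]
      exact S.add_mem hx hy

/-- The map on the level `w^a`. -/
def ph1 (a : ℕ) : MvPolynomial (Option σ) ℂ →ₗ[ℂ] LL σ :=
  (a.factorial : ℂ) • ((Finsupp.lsingle (-(a : ℤ)) : MvPolynomial σ ℂ →ₗ[ℂ] LL σ).comp
    (((Polynomial.lcoeff (MvPolynomial σ ℂ) a).restrictScalars ℂ).comp
      (optionEquivLeft ℂ σ).toLinearMap))

/-- `r w^a l^b ↦ δ_(a,b) a! r τ^(-a)`. -/
def Ph : MvPolynomial (Option (Option σ)) ℂ →ₗ[ℂ] LL σ :=
  (Polynomial.lsum fun a => ph1 a).comp (optionEquivLeft ℂ (Option σ)).toLinearMap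

theorem oel_io (r : MvPolynomial σ ℂ) :
    optionEquivLeft ℂ (Option σ) (io r) = Polynomial.C (rename some r) := by
  induction r using MvPolynomial.induction_on with
  | C a => simp
  | add p q hp hq => rw [map_add, map_add, hp, hq, map_add, map_add]
  | mul_X p k hp =>
    rw [map_mul, map_mul, hp, io_X, optionEquivLeft_X_some, map_mul, map_mul, rename_X]

theorem oel_some (r : MvPolynomial σ ℂ) :
    optionEquivLeft ℂ σ (rename some r) = Polynomial.C r := by
  induction r using MvPolynomial.induction_on with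
  | C a => simp
  | add p q hp hq => rw [map_add, map_add, hp, hq, map_add]
  | mul_X p k hp =>
    rw [map_mul, map_mul, hp, rename_X, optionEquivLeft_X_some, map_mul]

theorem Ph_apply (r : MvPolynomial σ ℂ) (a b : ℕ) :
    Ph (io r * ww ^ a * ll ^ b) =
      if a = b then Finsupp.single (-(a : ℤ)) ((a.factorial : ℂ) • r) else 0 := by
  have h1 : optionEquivLeft ℂ (Option σ) (io r * ww ^ a * ll ^ b) =
      Polynomial.monomial a (rename some r * X none ^ b) := by
    rw [map_mul, map_mul, map_pow, map_pow, oel_io, ww, ll, optionEquivLeft_X_none,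
      optionEquivLeft_X_some, ← Polynomial.C_mul_X_pow_eq_monomial, map_mul, map_pow]
    ring
  have h2 : optionEquivLeft ℂ σ (rename some r * X none ^ b) =
      Polynomial.monomial b r := by
    rw [map_mul, map_pow, oel_some, optionEquivLeft_X_none, Polynomial.C_mul_X_pow_eq_monomial]
  have h3 : Ph (io r * ww ^ a * ll ^ b) =
      Polynomial.lsum (fun a => ph1 (σ := σ) a)
        (optionEquivLeft ℂ (Option σ) (io r * ww ^ a * ll ^ b)) := rfl
  have h4 : ph1 a (rename some r * X none ^ b) = (a.factorial : ℂ) •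
      (Finsupp.single (-(a : ℤ)) ((optionEquivLeft ℂ σ (rename some r * X none ^ b)).coeff a) :
        LL σ) := rfl
  have h5 : Polynomial.sum (Polynomial.monomial a (rename some r * X none ^ b))
      (fun n x => ph1 (σ := σ) n x) = ph1 a (rename some r * X none ^ b) :=
    Polynomial.sum_monomial_index _ (fun n x => ph1 (σ := σ) n x) (map_zero _)
  rw [h3, h1, Polynomial.lsum_apply, h5, h4, h2, Polynomial.coeff_monomial]
  by_cases h : a = b
  · subst h
    rw [if_pos rfl, if_pos rfl, Finsupp.smul_single]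
  · rw [if_neg h, if_neg (Ne.symm h), Finsupp.single_zero, smul_zero]

theorem lext2 {M : Type} [AddCommMonoid M] [Module ℂ M]
    {φ ψ : MvPolynomial (Option (Option σ)) ℂ →ₗ[ℂ] M}
    (h : ∀ r a b, φ (io r * ww ^ a * ll ^ b) = ψ (io r * ww ^ a * ll ^ b))
    (g : MvPolynomial (Option (Option σ)) ℂ) : φ g = ψ g :=
  spn (fun g => φ g = ψ g) h (fun g g' hg hg' => by rw [map_add, map_add, hg, hg']) g

theorem Ph_io (r : MvPolynomial σ ℂ) (g : MvPolynomial (Option (Option σ)) ℂ) :
    Ph (io r * g) = mu r (Ph g) :=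
  lext2 (φ := Ph.comp (LinearMap.mulLeft ℂ (io r))) (ψ := (mu r).comp Ph) (by
    intro s a b
    rw [LinearMap.comp_apply, LinearMap.comp_apply, LinearMap.mulLeft_apply, Ph_apply]
    have h1 : io r * (io s * ww ^ a * ll ^ b) = io (r * s) * ww ^ a * ll ^ b := by
      rw [map_mul]
      ring
    rw [h1, Ph_apply]
    split_ifs
    · rw [mu_single, mul_smul_comm]
    · rw [map_zero]) g

theorem pdw (r : MvPolynomial σ ℂ) (a b : ℕ) : pderiv none (io r * ww ^ a * ll ^ b) =
    (a : MvPolynomial (Option (Option σ)) ℂ) * (io r * ww ^ (a - 1) * ll ^ b) := by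
  classical
  have h1 : pderiv none (io r) = 0 := pd_none _ (by simp) r
  have h2 : pderiv none (ww : MvPolynomial (Option (Option σ)) ℂ) = 1 := by
    rw [ww, pderiv_X_self]
  have h3 : pderiv none (ll : MvPolynomial (Option (Option σ)) ℂ) = 0 := by
    rw [ll, pderiv_X_of_ne (by simp)]
  rw [Derivation.leibniz, Derivation.leibniz, Derivation.leibniz_pow, Derivation.leibniz_pow, h1,
    h2, h3]
  simp only [smul_eq_mul, nsmul_eq_mul]
  ring

theorem pdl (r : MvPolynomial σ ℂ) (a b : ℕ) : pderiv (some none) (io r * ww ^ a * ll ^ b) =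
    (b : MvPolynomial (Option (Option σ)) ℂ) * (io r * ww ^ a * ll ^ (b - 1)) := by
  classical
  have h1 : pderiv (some none) (io r) = 0 := pd_none _ (by simp) r
  have h2 : pderiv (some none) (ww : MvPolynomial (Option (Option σ)) ℂ) = 0 := by
    rw [ww, pderiv_X_of_ne (by simp)]
  have h3 : pderiv (some none) (ll : MvPolynomial (Option (Option σ)) ℂ) = 1 := by
    rw [ll, pderiv_X_self]
  rw [Derivation.leibniz, Derivation.leibniz, Derivation.leibniz_pow, Derivation.leibniz_pow, h1,
    h2, h3]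
  simp only [smul_eq_mul, nsmul_eq_mul]
  ring

theorem pdi (i : σ) (r : MvPolynomial σ ℂ) (a b : ℕ) :
    pderiv (some (some i)) (io r * ww ^ a * ll ^ b) = io (pderiv i r) * ww ^ a * ll ^ b := by
  classical
  have h2 : pderiv (some (some i)) (ww : MvPolynomial (Option (Option σ)) ℂ) = 0 := by
    rw [ww, pderiv_X_of_ne (by simp)]
  have h3 : pderiv (some (some i)) (ll : MvPolynomial (Option (Option σ)) ℂ) = 0 := by
    rw [ll, pderiv_X_of_ne (by simp)]
  rw [Derivation.leibniz, Derivation.leibniz, Derivation.leibniz_pow, Derivation.leibniz_pow,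
    pd_ss, h2, h3]
  simp only [smul_eq_mul, nsmul_eq_mul]
  ring

theorem Ph_nat (n : ℕ) (g : MvPolynomial (Option (Option σ)) ℂ) :
    Ph ((n : MvPolynomial (Option (Option σ)) ℂ) * g) = (n : ℂ) • Ph g := by
  rw [← nsmul_eq_mul, map_nsmul, ← Nat.cast_smul_eq_nsmul ℂ]

theorem Ph_w (g : MvPolynomial (Option (Option σ)) ℂ) :
    Ph (pderiv none g) = sh 1 (Ph (ll * g)) :=
  lext2 (φ := Ph.comp ((pderiv none : Derivation ℂ (MvPolynomial (Option (Option σ)) ℂ)
      (MvPolynomial (Option (Option σ)) ℂ)) :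
          MvPolynomial (Option (Option σ)) ℂ →ₗ[ℂ] MvPolynomial (Option (Option σ)) ℂ))
    (ψ := (sh 1).comp (Ph.comp (LinearMap.mulLeft ℂ ll))) (by
    intro s a b
    have h1 : ll * (io s * ww ^ a * ll ^ b) = io s * ww ^ a * ll ^ (b + 1) := by ring
    rw [LinearMap.comp_apply, LinearMap.comp_apply, LinearMap.comp_apply, LinearMap.mulLeft_apply,
      Derivation.coeFn_coe, pdw, h1, Ph_nat, Ph_apply, Ph_apply]
    rcases a with _ | a
    · rw [if_neg (show ¬ (0 = b + 1) by omega), Nat.cast_zero, zero_smul, map_zero]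
    · by_cases h : a = b
      · subst h
        rw [if_pos (show a + 1 - 1 = a by omega), if_pos rfl, sh_single, Finsupp.smul_single,
          smul_smul, Nat.factorial_succ]
        have h2 : -((a + 1 - 1 : ℕ) : ℤ) = -((a + 1 : ℕ) : ℤ) + 1 := by
          push_cast [Nat.add_sub_cancel]
          ring
        rw [h2]
        push_cast [Nat.add_sub_cancel]
        rfl
      · rw [if_neg (show ¬ (a + 1 - 1 = b) by omega), if_neg (show ¬ (a + 1 = b + 1) by omega),
          smul_zero, map_zero]) g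

theorem Ph_l (g : MvPolynomial (Option (Option σ)) ℂ) :
    Ph (pderiv (some none) g) = sh 1 (Ph (ww * g)) :=
  lext2 (φ := Ph.comp ((pderiv (some none) : Derivation ℂ (MvPolynomial (Option (Option σ)) ℂ)
      (MvPolynomial (Option (Option σ)) ℂ)) :
          MvPolynomial (Option (Option σ)) ℂ →ₗ[ℂ] MvPolynomial (Option (Option σ)) ℂ))
    (ψ := (sh 1).comp (Ph.comp (LinearMap.mulLeft ℂ ww))) (by
    intro s a b
    have h1 : ww * (io s * ww ^ a * ll ^ b) = io s * ww ^ (a + 1) * ll ^ b := by ring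
    rw [LinearMap.comp_apply, LinearMap.comp_apply, LinearMap.comp_apply, LinearMap.mulLeft_apply,
      Derivation.coeFn_coe, pdl, h1, Ph_nat, Ph_apply, Ph_apply]
    rcases b with _ | b
    · rw [if_neg (show ¬ (a + 1 = 0) by omega), Nat.cast_zero, zero_smul, map_zero]
    · by_cases h : a = b
      · subst h
        rw [if_pos (show a = a + 1 - 1 by omega), if_pos rfl, sh_single, Finsupp.smul_single,
          smul_smul, Nat.factorial_succ]
        have h2 : -((a : ℕ) : ℤ) = -((a + 1 : ℕ) : ℤ) + 1 := by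
          push_cast
          ring
        rw [h2]
        push_cast
        rfl
      · rw [if_neg (show ¬ (a = b + 1 - 1) by omega), if_neg (show ¬ (a + 1 = b + 1) by omega),
          smul_zero, map_zero]) g

theorem Ph_i (i : σ) (g : MvPolynomial (Option (Option σ)) ℂ) :
    Ph (pderiv (some (some i)) g) = dr i (Ph g) :=
  lext2 (φ := Ph.comp ((pderiv (some (some i)) : Derivation ℂ
      (MvPolynomial (Option (Option σ)) ℂ) (MvPolynomial (Option (Option σ)) ℂ)) :
          MvPolynomial (Option (Option σ)) ℂ →ₗ[ℂ] MvPolynomial (Option (Option σ)) ℂ))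
    (ψ := (dr i).comp Ph) (by
    intro s a b
    rw [LinearMap.comp_apply, LinearMap.comp_apply, Derivation.coeFn_coe, pdi, Ph_apply, Ph_apply]
    split_ifs
    · rw [dr_single, Derivation.map_smul]
    · rw [map_zero]) g

theorem fac_smul (a : ℕ) (s : MvPolynomial σ ℂ) : ((a + 1).factorial : ℂ) • s =
    (a.factorial : ℂ) • s - ((-(a : ℤ) : ℤ) : ℂ) • ((a.factorial : ℂ) • s) := by
  rw [smul_smul, ← sub_smul, Nat.factorial_succ]
  congr 1
  push_cast
  ring

theorem Ph_S1 (s : MvPolynomial σ ℂ) (a : ℕ) :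
    sh 1 (Finsupp.single (-((a + 1 : ℕ) : ℤ)) (((a + 1).factorial : ℂ) • s) : LL σ) =
      Finsupp.single (-(a : ℤ)) ((a.factorial : ℂ) • s) -
        eu (Finsupp.single (-(a : ℤ)) ((a.factorial : ℂ) • s)) := by
  have h2 : -((a + 1 : ℕ) : ℤ) + 1 = -((a : ℕ) : ℤ) := by
    push_cast
    ring
  rw [sh_single, eu_single, h2, fac_smul, ← Finsupp.single_sub]

theorem Ph_S2 (s : MvPolynomial σ ℂ) (a b : ℕ) :
    sh 1 (Ph (ww * ll * (io s * ww ^ a * ll ^ b))) =
      Ph (io s * ww ^ a * ll ^ b) - eu (Ph (io s * ww ^ a * ll ^ b)) := by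
  have h1 : ww * ll * (io s * ww ^ a * ll ^ b) = io s * ww ^ (a + 1) * ll ^ (b + 1) := by ring
  rw [h1, Ph_apply, Ph_apply]
  by_cases h : a = b
  · subst h
    rw [if_pos rfl, if_pos rfl]
    exact Ph_S1 s a
  · rw [if_neg (show ¬ (a + 1 = b + 1) by omega), if_neg h, map_zero, map_zero, sub_zero]

theorem Ph_S (g : MvPolynomial (Option (Option σ)) ℂ) :
    sh 1 (Ph (ww * ll * g)) = Ph g - eu (Ph g) := by
  refine spn (fun g => sh 1 (Ph (ww * ll * g)) = Ph g - eu (Ph g)) (fun r a b => Ph_S2 r a b)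
    (fun g g' hg hg' => ?_) g
  rw [mul_add, map_add, map_add, hg, hg', map_add, map_add]
  abel

/-- The direct image. -/
def pp : LL (Option (Option σ)) →ₗ[ℂ] LL σ :=
  Finsupp.lsum ℂ fun j : ℤ => (sh j).comp Ph

@[simp] theorem pp_single (j : ℤ) (g : MvPolynomial (Option (Option σ)) ℂ) :
    pp (Finsupp.single j g) = sh j (Ph g) := by
  simp [pp]

theorem sh_sh (j k : ℤ) (v : LL σ) : sh j (sh k v) = sh (k + j) v :=
  lext (φ := (sh j).comp (sh k)) (ψ := sh (k + j)) (by
    intro i r
    simp only [LinearMap.comp_apply, sh_single, add_assoc]) v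

theorem mu_sh (j : ℤ) (g : MvPolynomial σ ℂ) (v : LL σ) : mu g (sh j v) = sh j (mu g v) :=
  lext (φ := (mu g).comp (sh j)) (ψ := (sh j).comp (mu g)) (by
    intro i r
    simp only [LinearMap.comp_apply, sh_single, mu_single]) v

theorem dr_sh (j : ℤ) (i : σ) (v : LL σ) : dr i (sh j v) = sh j (dr i v) :=
  lext (φ := (dr i).comp (sh j)) (ψ := (sh j).comp (dr i)) (by
    intro k r
    simp only [LinearMap.comp_apply, sh_single, dr_single]) v

theorem eu_sh (j : ℤ) (v : LL σ) : eu (sh j v) = sh j (eu v) + (j : ℂ) • sh j v :=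
  lext (φ := eu.comp (sh j)) (ψ := (sh j).comp eu + (j : ℂ) • sh j) (by
    intro k r
    simp only [LinearMap.comp_apply, sh_single, eu_single, LinearMap.add_apply,
      LinearMap.smul_apply, Finsupp.smul_single]
    rw [← Finsupp.single_add, ← add_smul]
    push_cast
    rfl) v

theorem stab_eq (f : MvPolynomial σ ℂ) : stabC f = io f + ww * ll := rfl

theorem pd_stab_none (f : MvPolynomial σ ℂ) : pderiv none (stabC f) = ll := by
  classical
  have h2 : pderiv none (ww : MvPolynomial (Option (Option σ)) ℂ) = 1 := by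
    rw [ww, pderiv_X_self]
  have h3 : pderiv none (ll : MvPolynomial (Option (Option σ)) ℂ) = 0 := by
    rw [ll, pderiv_X_of_ne (by simp)]
  rw [stab_eq, map_add, pd_none _ (by simp), Derivation.leibniz, h2, h3]
  simp

theorem pd_stab_snone (f : MvPolynomial σ ℂ) : pderiv (some none) (stabC f) = ww := by
  classical
  have h2 : pderiv (some none) (ww : MvPolynomial (Option (Option σ)) ℂ) = 0 := by
    rw [ww, pderiv_X_of_ne (by simp)]
  have h3 : pderiv (some none) (ll : MvPolynomial (Option (Option σ)) ℂ) = 1 := by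
    rw [ll, pderiv_X_self]
  rw [stab_eq, map_add, pd_none _ (by simp), Derivation.leibniz, h2, h3]
  simp

theorem pd_stab_i (f : MvPolynomial σ ℂ) (i : σ) :
    pderiv (some (some i)) (stabC f) = io (pderiv i f) := by
  classical
  have h2 : pderiv (some (some i)) (ww : MvPolynomial (Option (Option σ)) ℂ) = 0 := by
    rw [ww, pderiv_X_of_ne (by simp)]
  have h3 : pderiv (some (some i)) (ll : MvPolynomial (Option (Option σ)) ℂ) = 0 := by
    rw [ll, pderiv_X_of_ne (by simp)]
  rw [stab_eq, map_add, pd_ss, Derivation.leibniz, h2, h3]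
  simp

theorem pp_w (f : MvPolynomial σ ℂ) (v : LL (Option (Option σ))) :
    pp (dd (stabC f) none v) = 0 :=
  lext (φ := pp.comp (dd (stabC f) none)) (ψ := 0) (by
    intro j g
    rw [LinearMap.comp_apply, dd_single, map_sub, pp_single, pp_single, pd_stab_none, Ph_w,
      sh_sh, add_comm 1 j, sub_self, LinearMap.zero_apply]) v

theorem pp_l (f : MvPolynomial σ ℂ) (v : LL (Option (Option σ))) :
    pp (dd (stabC f) (some none) v) = 0 :=
  lext (φ := pp.comp (dd (stabC f) (some none))) (ψ := 0) (by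
    intro j g
    rw [LinearMap.comp_apply, dd_single, map_sub, pp_single, pp_single, pd_stab_snone, Ph_l,
      sh_sh, add_comm 1 j, sub_self, LinearMap.zero_apply]) v

theorem pp_i (f : MvPolynomial σ ℂ) (i : σ) (v : LL (Option (Option σ))) :
    pp (dd (stabC f) (some (some i)) v) = dd f i (pp v) :=
  lext (φ := pp.comp (dd (stabC f) (some (some i)))) (ψ := (dd f i).comp pp) (by
    intro j g
    rw [LinearMap.comp_apply, LinearMap.comp_apply, dd_single, map_sub, pp_single, pp_single,
      pd_stab_i, pp_single, Ph_i, Ph_io, dd, LinearMap.sub_apply, LinearMap.comp_apply, dr_sh,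
      mu_sh, sh_sh]) v

theorem pp_mu (r : MvPolynomial σ ℂ) (v : LL (Option (Option σ))) :
    pp (mu (io r) v) = mu r (pp v) :=
  lext (φ := pp.comp (mu (io r))) (ψ := (mu r).comp pp) (by
    intro j g
    rw [LinearMap.comp_apply, LinearMap.comp_apply, mu_single, pp_single, pp_single, Ph_io,
      mu_sh]) v

theorem pp_S (f : MvPolynomial σ ℂ) (v : LL (Option (Option σ))) :
    pp (SS (stabC f) v) = SS f (pp v) - pp v :=
  lext (φ := pp.comp (SS (stabC f))) (ψ := (SS f).comp pp - pp) (by
    intro j g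
    rw [LinearMap.comp_apply, LinearMap.sub_apply, LinearMap.comp_apply, SS_single, map_sub,
      pp_single, pp_single, pp_single, stab_eq, add_mul, map_add, Ph_io, SS, LinearMap.sub_apply,
      LinearMap.comp_apply, eu_sh, mu_sh, sh_sh, map_smul, map_smul]
    have h1 : sh (j + 1) (Ph (ww * ll * g)) = sh j (Ph g) - sh j (eu (Ph g)) := by
      rw [← map_sub, ← Ph_S, sh_sh, add_comm]
    rw [map_add, h1]
    abel) v

/-! ### The submodules -/

/-- The class of `v`. -/
def Nn (f : MvPolynomial σ ℂ) (v : LL (Option (Option σ))) : Submodule (DL f) (LL σ) :=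
  Submodule.span (DL f) {x | ∃ g, x = pp (mu g v)}

theorem mem_Nn (f : MvPolynomial σ ℂ) (v : LL (Option (Option σ)))
    (g : MvPolynomial (Option (Option σ)) ℂ) : pp (mu g v) ∈ Nn f v :=
  Submodule.subset_span ⟨g, rfl⟩

theorem dd_mem (f : MvPolynomial σ ℂ) (i : σ) : dd f i ∈ DL f :=
  Algebra.subset_adjoin (Or.inl (Or.inr ⟨i, rfl⟩))

theorem SS_mem (f : MvPolynomial σ ℂ) : SS f ∈ DL f :=
  Algebra.subset_adjoin (Or.inr rfl)

theorem mu_mem (f r : MvPolynomial σ ℂ) : mu r ∈ DL f := by
  induction r using MvPolynomial.induction_on with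
  | C a =>
    have h : mu (MvPolynomial.C a : MvPolynomial σ ℂ) = algebraMap ℂ (Module.End ℂ (LL σ)) a := by
      ext1 j
      apply LinearMap.ext
      intro r
      change mu (MvPolynomial.C a) _ = a • _
      exact mu_C a _
    rw [h]
    exact Subalgebra.algebraMap_mem _ a
  | add p q hp hq =>
    have h : mu (p + q) = mu p + mu q := LinearMap.ext fun v => mu_add p q v
    rw [h]
    exact Subalgebra.add_mem _ hp hq
  | mul_X p k hp =>
    have h : mu (p * X k) = mu p * mu (X k) := LinearMap.ext fun v => (mu_mul p (X k) v).symm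
    rw [h]
    exact Subalgebra.mul_mem _ hp (Algebra.subset_adjoin (Or.inl (Or.inl ⟨k, rfl⟩)))

theorem smul_mem' (f : MvPolynomial σ ℂ) (W : Submodule (DL f) (LL σ)) (Q : Module.End ℂ (LL σ))
    (hQ : Q ∈ DL f) (x : LL σ) (hx : x ∈ W) : Q x ∈ W :=
  W.smul_mem ⟨Q, hQ⟩ hx

theorem sub_mem' (f : MvPolynomial σ ℂ) (W : Submodule (DL f) (LL σ)) {x y : LL σ} (hx : x ∈ W)
    (hy : y ∈ W) : x - y ∈ W := by
  have h1 : x - y = x + mu (MvPolynomial.C (-1 : ℂ)) y := by
    rw [mu_C, neg_smul, one_smul, sub_eq_add_neg]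
  rw [h1]
  exact W.add_mem hx (smul_mem' f W _ (mu_mem f _) y hy)

theorem gen_Nn (f : MvPolynomial σ ℂ) (Q : Module.End ℂ (LL (Option (Option σ))))
    (hQ : Q ∈ DL (stabC f)) : ∀ v g, pp (mu g (Q v)) ∈ Nn f v := by
  induction hQ using Algebra.adjoin_induction with
  | mem P hP =>
    intro v g
    rcases hP with (⟨i, rfl⟩ | ⟨i, rfl⟩) | hP
    · change pp (mu g (mu (X i) v)) ∈ _
      rw [mu_mul]
      exact mem_Nn f v _
    · change pp (mu g (dd (stabC f) i v)) ∈ _
      rw [mu_dd, map_sub]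
      refine sub_mem' f _ ?_ (mem_Nn f v _)
      rcases i with _ | _ | i
      · rw [pp_w]
        exact Submodule.zero_mem _
      · rw [pp_l]
        exact Submodule.zero_mem _
      · rw [pp_i]
        exact smul_mem' f _ _ (dd_mem f i) _ (mem_Nn f v _)
    · rw [Set.mem_singleton_iff] at hP
      subst hP
      rw [mu_SS, pp_S]
      exact sub_mem' f _ (smul_mem' f _ _ (SS_mem f) _ (mem_Nn f v _)) (mem_Nn f v _)
  | algebraMap c =>
    intro v g
    rw [Module.algebraMap_end_apply, ← mu_C, mu_mul]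
    exact mem_Nn f v _
  | add P P' _ _ h h' =>
    intro v g
    rw [LinearMap.add_apply, map_add, map_add]
    exact Submodule.add_mem _ (h v g) (h' v g)
  | mul P P' _ _ h h' =>
    intro v g
    rw [Module.End.mul_apply]
    have h1 : Nn f (P' v) ≤ Nn f v := by
      refine Submodule.span_le.2 ?_
      rintro x ⟨g', rfl⟩
      exact h' v g'
    exact h1 (h _ g)

theorem SS_comm (f : MvPolynomial σ ℂ) (Q : Module.End ℂ (LL σ)) (hQ : Q ∈ DL f) (v : LL σ) :
    SS f (Q v) = Q (SS f v) := by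
  induction hQ using Algebra.adjoin_induction generalizing v with
  | mem P hP =>
    rcases hP with (⟨i, rfl⟩ | ⟨i, rfl⟩) | hP
    · exact (mu_SS f (X i) v).symm
    · exact (dd_SS f i v).symm
    · rw [Set.mem_singleton_iff] at hP
      subst hP
      rfl
  | algebraMap c => rw [Module.algebraMap_end_apply, Module.algebraMap_end_apply, map_smul]
  | add P P' _ _ h h' => rw [LinearMap.add_apply, LinearMap.add_apply, map_add, h, h']
  | mul P P' _ _ h h' => rw [Module.End.mul_apply, Module.End.mul_apply, h, h']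

theorem aeval_comm (f : MvPolynomial σ ℂ) (p : Polynomial ℂ) (Q : Module.End ℂ (LL σ))
    (hQ : Q ∈ DL f) (v : LL σ) :
    (Polynomial.aeval (R := ℂ) (SS f : Module.End ℂ (LL σ)) p) (Q v) =
      Q ((Polynomial.aeval (R := ℂ) (SS f : Module.End ℂ (LL σ)) p) v) := by
  induction p using Polynomial.induction_on generalizing v with
  | C a => rw [Polynomial.aeval_C, Module.algebraMap_end_apply, Module.algebraMap_end_apply,
      map_smul]
  | add p q hp hq => rw [map_add, LinearMap.add_apply, LinearMap.add_apply, map_add, hp, hq]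
  | monomial n a h =>
    rw [pow_succ, ← mul_assoc, map_mul, Polynomial.aeval_X, Module.End.mul_apply,
      Module.End.mul_apply, SS_comm f Q hQ, h]

theorem aeval_mem (f : MvPolynomial σ ℂ) (p : Polynomial ℂ) :
    (Polynomial.aeval (R := ℂ) (SS f : Module.End ℂ (LL σ)) p) ∈ DL f := by
  induction p using Polynomial.induction_on with
  | C a =>
    rw [Polynomial.aeval_C]
    exact Subalgebra.algebraMap_mem _ a
  | add p q hp hq =>
    rw [map_add]
    exact Subalgebra.add_mem _ hp hq
  | monomial n a h =>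
    rw [pow_succ, ← mul_assoc, map_mul, Polynomial.aeval_X]
    exact Subalgebra.mul_mem _ h (SS_mem f)

/-- The product of the `X + i + 1`, `i < M`. -/
def Pr (M : ℕ) : Polynomial ℂ :=
  ∏ i ∈ Finset.range M, (Polynomial.X + Polynomial.C ((i : ℂ) + 1))

/-- The left ideal generated by `f`. -/
def JJ (f : MvPolynomial σ ℂ) : Submodule (DL f) (LL σ) :=
  Submodule.span (DL f) {Finsupp.single 0 f}

theorem JJ_single (f h : MvPolynomial σ ℂ) : (Finsupp.single 0 (h * f) : LL σ) ∈ JJ f := by
  rw [← mu_single]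
  exact smul_mem' f _ _ (mu_mem f h) _ (Submodule.subset_span rfl)

theorem Pr_add (f : MvPolynomial σ ℂ) (k M : ℕ) (h : k ≤ M) (x : LL σ)
    (hx : (Polynomial.aeval (R := ℂ) (SS f : Module.End ℂ (LL σ)) (Pr k)) x ∈ JJ f) :
    (Polynomial.aeval (R := ℂ) (SS f : Module.End ℂ (LL σ)) (Pr M)) x ∈ JJ f := by
  induction M, h using Nat.le_induction with
  | base => exact hx
  | succ M _ ih =>
    rw [Pr, Finset.prod_range_succ, mul_comm, map_mul, Module.End.mul_apply]
    exact smul_mem' f _ _ (aeval_mem f _) _ ih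

/-- The elements which are moved into `JJ f` by all large products. -/
def TT (f : MvPolynomial σ ℂ) : Submodule (DL f) (LL σ) where
  carrier := {x | ∃ k, (Polynomial.aeval (R := ℂ) (SS f : Module.End ℂ (LL σ)) (Pr k)) x ∈ JJ f}
  add_mem' {x y} hx hy := by
    obtain ⟨k, hk⟩ := hx
    obtain ⟨l, hl⟩ := hy
    refine ⟨max k l, ?_⟩
    rw [map_add]
    exact Submodule.add_mem _ (Pr_add f k _ (le_max_left _ _) x hk)
      (Pr_add f l _ (le_max_right _ _) y hl)
  zero_mem' := ⟨0, by
    rw [map_zero]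
    exact Submodule.zero_mem _⟩
  smul_mem' Q x hx := by
    obtain ⟨k, hk⟩ := hx
    refine ⟨k, ?_⟩
    have h1 : (Polynomial.aeval (R := ℂ) (SS f : Module.End ℂ (LL σ)) (Pr k)) (Q • x) =
        Q • (Polynomial.aeval (R := ℂ) (SS f : Module.End ℂ (LL σ)) (Pr k)) x :=
      aeval_comm f _ Q.1 Q.2 x
    rw [h1]
    exact Submodule.smul_mem _ _ hk

theorem Pr_single (f : MvPolynomial σ ℂ) (k : ℕ) (r : MvPolynomial σ ℂ) :
    (Polynomial.aeval (R := ℂ) (SS f : Module.End ℂ (LL σ)) (Pr k))
      (Finsupp.single (-(k : ℤ)) r) = Finsupp.single 0 ((-f) ^ k * r) := by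
  induction k generalizing r with
  | zero => simp [Pr]
  | succ k ih =>
    rw [Pr, Finset.prod_range_succ, map_mul, Module.End.mul_apply]
    have h1 : (Polynomial.aeval (R := ℂ) (SS f : Module.End ℂ (LL σ))
        (Polynomial.X + Polynomial.C ((k : ℂ) + 1))) (Finsupp.single (-((k + 1 : ℕ) : ℤ)) r) =
        Finsupp.single (-(k : ℤ)) ((-f) * r) := by
      rw [map_add, Polynomial.aeval_X, Polynomial.aeval_C, LinearMap.add_apply,
        Module.algebraMap_end_apply, SS_single]
      have h2 : -((k + 1 : ℕ) : ℤ) + 1 = -(k : ℤ) := by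
        push_cast
        ring
      have h3 : (((-((k + 1 : ℕ) : ℤ)) : ℤ) : ℂ) = -((k : ℂ) + 1) := by
        push_cast
        ring
      rw [h2, h3, Finsupp.smul_single, neg_mul, Finsupp.single_neg, neg_smul, Finsupp.single_neg]
      abel
    rw [h1]
    have h4 := ih (-f * r)
    rw [Pr] at h4
    rw [h4, ← mul_assoc, ← pow_succ]

theorem TT_single (f : MvPolynomial σ ℂ) (k : ℕ) (hk : 1 ≤ k) (r : MvPolynomial σ ℂ) :
    (Finsupp.single (-(k : ℤ)) r : LL σ) ∈ TT f := by
  refine ⟨k, ?_⟩
  rw [Pr_single]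
  obtain ⟨m, rfl⟩ : ∃ m, k = m + 1 := ⟨k - 1, by omega⟩
  have h1 : (-f) ^ (m + 1) * r = (-(-f) ^ m * r) * f := by
    rw [pow_succ]
    ring
  rw [h1]
  exact JJ_single f _

theorem TT_single' (f : MvPolynomial σ ℂ) (k : ℕ) (r : MvPolynomial σ ℂ) :
    (Finsupp.single (-(k : ℤ)) (r * f) : LL σ) ∈ TT f := by
  refine ⟨k, ?_⟩
  rw [Pr_single, ← mul_assoc]
  exact JJ_single f _

theorem Nn_le (f : MvPolynomial σ ℂ) :
    Nn f (Finsupp.single 0 (stabC f)) ≤ TT f := by
  refine Submodule.span_le.2 ?_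
  rintro x ⟨g, rfl⟩
  change pp (mu g (Finsupp.single 0 (stabC f))) ∈ TT f
  have h0 : ∀ v : LL σ, sh 0 v = v := fun v =>
    lext (φ := sh 0) (ψ := LinearMap.id) (by
      intro j r
      rw [sh_single, add_zero, LinearMap.id_apply]) v
  rw [mu_single, pp_single, h0]
  refine spn (fun g => Ph (g * stabC f) ∈ TT f) (fun r a b => ?_) (fun g g' hg hg' => ?_) g
  · have h1 : io r * ww ^ a * ll ^ b * stabC f =
        io (r * f) * ww ^ a * ll ^ b + io r * ww ^ (a + 1) * ll ^ (b + 1) := by
      rw [stab_eq, map_mul]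
      ring
    rw [h1, map_add, Ph_apply, Ph_apply]
    by_cases h : a = b
    · subst h
      rw [if_pos rfl, if_pos rfl]
      refine Submodule.add_mem _ ?_ (TT_single f (a + 1) (by omega) _)
      rw [← smul_mul_assoc]
      exact TT_single' f a _
    · rw [if_neg h, if_neg (by omega), add_zero]
      exact Submodule.zero_mem _
  · rw [add_mul, map_add]
    exact Submodule.add_mem _ hg hg'

/-- The part without `w`, `l`. -/
def co0 : MvPolynomial (Option (Option σ)) ℂ →ₐ[ℂ] MvPolynomial σ ℂ :=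
  MvPolynomial.aeval fun k => match k with
    | none => 0
    | some none => 0
    | some (some i) => X i

theorem co0_io (r : MvPolynomial σ ℂ) : co0 (io r) = r := by
  induction r using MvPolynomial.induction_on with
  | C a => simp [co0]
  | add p q hp hq => rw [map_add, map_add, hp, hq]
  | mul_X p k hp => rw [map_mul, map_mul, hp, io_X, co0, MvPolynomial.aeval_X]

theorem co0_ww : co0 (ww : MvPolynomial (Option (Option σ)) ℂ) = 0 := by
  rw [co0, ww, MvPolynomial.aeval_X]

theorem co0_ll : co0 (ll : MvPolynomial (Option (Option σ)) ℂ) = 0 := by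
  rw [co0, ll, MvPolynomial.aeval_X]

theorem co0_const (g : MvPolynomial (Option (Option σ)) ℂ) :
    constantCoeff (co0 g) = constantCoeff g := by
  induction g using MvPolynomial.induction_on with
  | C a => simp [co0]
  | add p q hp hq => rw [map_add, map_add, map_add, hp, hq]
  | mul_X p k hp =>
    rw [map_mul, map_mul, map_mul, hp, co0, MvPolynomial.aeval_X, constantCoeff_X]
    rcases k with _ | _ | i
    · simp
    · simp
    · simp

theorem Ph_co0 (f : MvPolynomial σ ℂ) (g : MvPolynomial (Option (Option σ)) ℂ) :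
    Ph g - Finsupp.single 0 (co0 g) ∈ TT f := by
  refine spn (fun g => Ph g - Finsupp.single 0 (co0 g) ∈ TT f) (fun r a b => ?_)
    (fun g g' hg hg' => ?_) g
  · rw [Ph_apply, map_mul, map_mul, map_pow, map_pow, co0_io, co0_ww, co0_ll]
    by_cases h : a = b
    · subst h
      rw [if_pos rfl]
      rcases a with _ | a
      · simp
      · rw [zero_pow (Nat.succ_ne_zero a), mul_zero, Finsupp.single_zero, sub_zero]
        exact TT_single f (a + 1) (by omega) _
    · rw [if_neg h]
      have h1 : r * 0 ^ a * 0 ^ b = (0 : MvPolynomial σ ℂ) := by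
        rcases a with _ | a
        · rcases b with _ | b
          · exact absurd rfl h
          · rw [zero_pow (Nat.succ_ne_zero b), mul_zero]
        · rw [zero_pow (Nat.succ_ne_zero a), mul_zero, zero_mul]
      rw [h1, Finsupp.single_zero, sub_zero]
      exact Submodule.zero_mem _
  · rw [map_add, map_add, Finsupp.single_add]
    have := Submodule.add_mem _ hg hg'
    convert this using 1
    abel

theorem ev_aeval (f : MvPolynomial σ ℂ) (N : ℕ) (p : Polynomial ℂ) (v : LL σ) :
    ev f N ((Polynomial.aeval (R := ℂ) (SS f : Module.End ℂ (LL σ)) p) v) =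
      p.eval (N : ℂ) • ev f N v := by
  induction p using Polynomial.induction_on generalizing v with
  | C a => rw [Polynomial.aeval_C, Module.algebraMap_end_apply, map_smul, Polynomial.eval_C]
  | add p q hp hq =>
    rw [map_add, LinearMap.add_apply, map_add, hp, hq, Polynomial.eval_add, add_smul]
  | monomial n a h =>
    rw [pow_succ, ← mul_assoc, map_mul, Polynomial.aeval_X, Module.End.mul_apply, h, ev_SS,
      smul_smul, Polynomial.eval_mul_X]

theorem pp_aeval (f : MvPolynomial σ ℂ) (p : Polynomial ℂ) (v : LL (Option (Option σ))) :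
    pp ((Polynomial.aeval (R := ℂ)
      (SS (stabC f) : Module.End ℂ (LL (Option (Option σ)))) p) v) =
      (Polynomial.aeval (R := ℂ) (SS f : Module.End ℂ (LL σ)) (p.comp (Polynomial.X - 1)))
        (pp v) := by
  induction p using Polynomial.induction_on generalizing v with
  | C a =>
    rw [Polynomial.aeval_C, Module.algebraMap_end_apply, map_smul, Polynomial.C_comp,
      Polynomial.aeval_C, Module.algebraMap_end_apply]
  | add p q hp hq =>
    rw [map_add, LinearMap.add_apply, map_add, hp, hq, Polynomial.add_comp, map_add,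
      LinearMap.add_apply]
  | monomial n a h =>
    rw [pow_succ, ← mul_assoc, map_mul, Polynomial.aeval_X, Module.End.mul_apply, h, pp_S,
      Polynomial.mul_X_comp, map_mul, Module.End.mul_apply, map_sub (Polynomial.aeval _),
      Polynomial.aeval_X, map_one, LinearMap.sub_apply, Module.End.one_apply]

theorem wt_self (f : MvPolynomial σ ℂ) (N : ℕ) : wt f N ((N : ℤ) - 0) = f ^ N := by
  rw [sub_zero, wt_nat, ec_self, one_smul]

theorem t : Pool.Agent.Helper74.HG.CONV := by
  intro σ _ f b hb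
  obtain ⟨P, hP, h', hh, heq⟩ := hb
  obtain ⟨Q, hQ, hR⟩ := toDL (stabC f) P hP
  have h1 : Q (Finsupp.single 0 (stabC f)) = (Polynomial.aeval (R := ℂ)
      (SS (stabC f) : Module.End ℂ (LL (Option (Option σ)))) b) (Finsupp.single 0 h') := by
    rw [← sub_eq_zero]
    refine ev_inj (stabC f) _ ?_ fun N => ?_
    · exact Submodule.sub_mem (nn _) (DL_nn _ Q hQ _ (nn_single _ le_rfl _))
        (DL_nn _ _ (aeval_mem _ b) _ (nn_single _ le_rfl _))
    · rw [map_sub, hR, ev_aeval, ev_single, ev_single, wt_self, ← pow_succ', heq N,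
        MvPolynomial.smul_eq_C_mul, mul_assoc, sub_self]
  have h2 : pp (Q (Finsupp.single 0 (stabC f))) ∈ TT f := by
    refine Nn_le f ?_
    have := gen_Nn f Q hQ (Finsupp.single 0 (stabC f)) 1
    rwa [mu_one] at this
  rw [h1, pp_aeval, pp_single] at h2
  have h0 : ∀ v : LL σ, sh 0 v = v := fun v =>
    lext (φ := sh 0) (ψ := LinearMap.id) (by
      intro j r
      rw [sh_single, add_zero, LinearMap.id_apply]) v
  rw [h0] at h2
  have h3 : (Polynomial.aeval (R := ℂ) (SS f : Module.End ℂ (LL σ))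
      (b.comp (Polynomial.X - 1))) (Finsupp.single 0 (co0 h')) ∈ TT f := by
    have h4 := smul_mem' f (TT f) _ (aeval_mem f (b.comp (Polynomial.X - 1))) _ (Ph_co0 f h')
    rw [map_sub] at h4
    have h5 := sub_mem' f _ h2 h4
    rwa [sub_sub_cancel] at h5
  obtain ⟨M, hM⟩ := h3
  refine ⟨M, ?_⟩
  obtain ⟨R, hR'⟩ := Submodule.mem_span_singleton.1 hM
  obtain ⟨P', hP', hR2⟩ := toDS f R.1 R.2
  refine ⟨P', hP', co0 h', ?_, fun N => ?_⟩
  · rw [co0_const]
    exact hh
  · have h6 := hR2 N (Finsupp.single 0 f)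
    have h7 : R.1 (Finsupp.single 0 f) = (Polynomial.aeval (R := ℂ)
        (SS f : Module.End ℂ (LL σ)) (Pr M)) ((Polynomial.aeval (R := ℂ)
          (SS f : Module.End ℂ (LL σ)) (b.comp (Polynomial.X - 1)))
            (Finsupp.single 0 (co0 h'))) := hR'
    rw [h7, ev_aeval, ev_aeval, ev_single, ev_single, wt_self, ← pow_succ', smul_smul] at h6
    rw [← h6, MvPolynomial.smul_eq_C_mul, ← Polynomial.eval_mul, mul_assoc]
    rfl

end

end Pool.Agent.Helper93.HG.CONV
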